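import Pool.Agent.Helper36.CV.StmtsO

set_option autoImplicit false

namespace Pool.Agent.Helper36.CV

theorem o5_sqrt : 2 < Real.sqrt 5 ∧ 3 * Real.sqrt 5 < 7 := by
  have h := Real.sq_sqrt (show (0 : ℝ) ≤ 5 by norm_num)
  have h0 := Real.sqrt_nonneg 5
  constructor <;> nlinarith

theorem o5_vv1 : vv 1 = 1 := by
  obtain ⟨h1, h2⟩ := o5_sqrt
  have hf : Int.fract (((1 : ℤ) : ℝ) * ((Real.sqrt 5 - 1) / 2)) = (Real.sqrt 5 - 1) / 2 := by
    rw [Int.cast_one, one_mul, Int.fract_eq_self]
    constructor <;> linarith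
  unfold vv
  rw [hf, Set.indicator_of_mem]
  constructor <;> linarith

theorem o5_vv2 : vv 2 = 0 := by
  obtain ⟨h1, h2⟩ := o5_sqrt
  have hf : Int.fract (((2 : ℤ) : ℝ) * ((Real.sqrt 5 - 1) / 2)) = Real.sqrt 5 - 2 := by
    rw [Int.fract_eq_iff]
    refine ⟨by linarith, by linarith, 1, ?_⟩
    push_cast
    ring
  unfold vv
  rw [hf, Set.indicator_of_notMem]
  rintro ⟨h3, -⟩
  linarith

theorem o5_comp (w : ℤ → ℝ) (E : ℝ) (a : ℤ) (m n : ℕ) :
    Pr w E a (m + n) = Pr w E (a + m) n * Pr w E a m := by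
  induction n with
  | zero => simp [Pr]
  | succ n ih =>
    rw [← add_assoc]
    simp only [Pr]
    rw [ih, mul_assoc]
    congr 3
    push_cast
    ring

theorem o5_shift (w : ℤ → ℝ) (E : ℝ) (a : ℤ) (n : ℕ)
    (h : ∀ j : ℤ, 1 ≤ j → j ≤ n → w (a + j) = w j) : Pr w E a n = Pr w E 0 n := by
  induction n with
  | zero => simp [Pr]
  | succ n ih =>
    simp only [Pr]
    rw [ih fun j h1 h2 => h j h1 (by push_cast; omega)]
    congr 2
    have := h (n + 1) (by omega) (by push_cast; omega)
    rw [add_assoc, this]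
    congr 1
    ring

theorem st_O5 (h6 : ST_O6) : ST_O5 := by
  intro l E n hn
  induction n using Nat.strong_induction_on with
  | _ n ih =>
    rcases Nat.lt_or_ge n 4 with h4 | h4
    · interval_cases n
      · have h1 : Pr (fun k => l * vv k) E 0 (Nat.fib 2) = Tr E l := by
          have : Nat.fib 2 = 1 := rfl
          rw [this]
          simp [Pr, o5_vv1]
        rw [h1]
        simp only [M, Tr]
        ext i j
        fin_cases i <;> fin_cases j <;> simp [Matrix.mul_apply, Fin.sum_univ_two]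
        ring
      · have h1 : Pr (fun k => l * vv k) E 0 (Nat.fib 3) = Tr E 0 * Tr E l := by
          have : Nat.fib 3 = 2 := rfl
          rw [this]
          simp [Pr, o5_vv1, o5_vv2]
        rw [h1]
        simp only [M, Tr]
        ext i j
        fin_cases i <;> fin_cases j <;> simp [Matrix.mul_apply, Fin.sum_univ_two] <;>
          first | (left; ring) | ring
    · obtain ⟨m, rfl⟩ : ∃ m, n = m + 2 := ⟨n - 2, by omega⟩
      have hM : M l E (m + 2) = M l E m * M l E (m + 1) := rfl
      rw [hM, ih m (by omega) (by omega), ih (m + 1) (by omega) (by omega)]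
      have hfib : Nat.fib (m + 2) = Nat.fib (m + 1) + Nat.fib m := by
        rw [Nat.fib_add_two, add_comm]
      rw [hfib, o5_comp]
      congr 1
      symm
      apply o5_shift
      intro j h1 h2
      have h3 : 2 ≤ Nat.fib (m + 1) := by
        have h5 : Nat.fib 3 ≤ Nat.fib (m + 1) := Nat.fib_mono (show 3 ≤ m + 1 by omega)
        exact h5
      have h4 := h6.1 (m + 1) j (by omega) h1 (by
        have : Nat.fib (m + 1 + 1) = Nat.fib (m + 1) + Nat.fib m := hfib
        rw [this]
        push_cast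
        have : (2 : ℤ) ≤ (Nat.fib (m + 1) : ℤ) := by exact_mod_cast h3
        linarith)
      show l * vv (0 + (Nat.fib (m + 1) : ℤ) + j) = l * vv j
      rw [← h4]
      congr 2
      ring

end Pool.Agent.Helper36.CV
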